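import Mathlib
import Pool.Agent.R328.QB
import Pool.Agent.Y820.LB.Bridge

/-!
# Explicit Lehmer type bounds from residues and from adapted inner products

There is an absolute constant `c > 0` such that for irreducible `f ∈ ℤ[X]` with `M(f) > 1`:

* `log M(f) ≥ c / (1 + log (1 + S))^3`, where `S = ∑ |Q(a)| / |f'(a)|`, the sum over the zeros of `f`,
  for any nonzero `Q ∈ ℤ[X]` of degree smaller than `deg f`;
* `log M(f) ≥ c / (1 + log (1 + L))^3` if `f` is the characteristic polynomial of an integer matrix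
  that has, after a change of basis with condition number at most `L`, an orthogonal decomposition
  into a contraction and a matrix that does not decrease norms.
-/

set_option autoImplicit false

namespace Pool.Agent.Results.MP_dc0c68_nt.CompanionRates

open Polynomial

noncomputable section

/-- The Mahler measure of an integer polynomial. -/
def mahler (P : ℤ[X]) : ℝ := (P.map (Int.castRingHom ℂ)).mahlerMeasure

/-- The sum of the absolute values `|Q(a)| / |f'(a)|` over the complex zeros `a` of `f`. -/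
def residueSum (f Q : ℤ[X]) : ℝ :=
  ∑ a ∈ (f.map (Int.castRingHom ℂ)).roots.toFinset,
    ‖(Q.map (Int.castRingHom ℂ)).eval a‖ / ‖(derivative (f.map (Int.castRingHom ℂ))).eval a‖

/-- The sum of the squares of the absolute values of the coordinates. -/
def sqNorm {n : ℕ} (x : Fin n → ℂ) : ℝ := ∑ i, ‖x i‖ ^ 2

/-- The condition number `‖S‖ ‖T‖` of a matrix `S` with inverse `T` is at most `L`. -/
def CondLe (L : ℝ) {n : ℕ} (S T : Matrix (Fin n) (Fin n) ℂ) : Prop :=
  ∃ a b : ℝ, 0 ≤ a ∧ 0 ≤ b ∧ a * b ≤ L ∧ (∀ x, sqNorm (S.mulVec x) ≤ a ^ 2 * sqNorm x) ∧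
    ∀ x, sqNorm (T.mulVec x) ≤ b ^ 2 * sqNorm x

/-- There is a matrix `S` with `‖S‖ ‖S⁻¹‖ ≤ L` such that `B = S⁻¹ A S` commutes with an orthogonal
projection `E`, does not increase norms on the range of `E` and does not decrease norms on the
orthogonal complement. -/
def IsAdapted (L : ℝ) {n : ℕ} (A : Matrix (Fin n) (Fin n) ℤ) : Prop :=
  ∃ S T B E : Matrix (Fin n) (Fin n) ℂ, S * T = 1 ∧
    A.map (Int.castRingHom ℂ) = S * B * T ∧ CondLe L S T ∧
    E.conjTranspose = E ∧ E * E = E ∧ B * E = E * B ∧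
    (∀ x, sqNorm ((B * E).mulVec x) ≤ sqNorm (E.mulVec x)) ∧
    (∀ x, sqNorm ((1 - E).mulVec x) ≤ sqNorm ((B * (1 - E)).mulVec x))

theorem result : ∃ c : ℝ, 0 < c ∧
    (∀ f Q : ℤ[X], Irreducible f → Q ≠ 0 → Q.degree < f.degree → 1 < mahler f →
      c / (1 + Real.log (1 + residueSum f Q)) ^ 3 ≤ Real.log (mahler f)) ∧
    (∀ (n : ℕ) (A : Matrix (Fin n) (Fin n) ℤ) (L : ℝ), IsAdapted L A → Irreducible A.charpoly →
      1 < mahler A.charpoly →
      c / (1 + Real.log (1 + L)) ^ 3 ≤ Real.log (mahler A.charpoly)) := by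
  obtain ⟨c1, hc1, h1⟩ := Pool.Agent.R328.residues
  obtain ⟨c2, hc2, h2⟩ := Pool.Agent.R328.adapted
  refine ⟨min c1 c2, lt_min hc1 hc2, ?_, ?_⟩
  · intro f Q hf hQ hdeg hM
    have h3 := h1 f Q (residueSum f Q) hf hQ hdeg le_rfl hM
    have hS : 0 ≤ residueSum f Q := Finset.sum_nonneg fun _ _ => by positivity
    have hl : 0 ≤ Real.log (1 + residueSum f Q) := Real.log_nonneg (by linarith)
    exact (div_le_div_of_nonneg_right (min_le_left _ _) (by positivity)).trans h3
  · rintro n A L ⟨S, T, B, E, g1, g2, ⟨a, b, ha, hb, hab, hS, hT⟩, g4, g5, g6, g7, g8⟩ hirr hM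
    have hAd := Pool.Agent.Y820.LB.ad_of L A S T B E a b g1 g2 ha hb hab hS hT g4 g5 g6 g7 g8
    have h3 := h2 n A S T B E L hAd hirr hM
    have hL : 0 ≤ L := (mul_nonneg ha hb).trans hab
    have hl : 0 ≤ Real.log (1 + L) := Real.log_nonneg (by linarith)
    exact (div_le_div_of_nonneg_right (min_le_right _ _) (by positivity)).trans h3

end

end Pool.Agent.Results.MP_dc0c68_nt.CompanionRates
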