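import Pool.Agent.W110.PF.E

/-!
# Lehmer's problem for families of matrices over a torus with bounded mean log condition

Let `A(z) = z ^ (-d) P(z)` be a matrix, of any size `n`, of Laurent polynomials with integer
coefficients in any number `k` of variables `z = (z_1, …, z_k)`, and `g(z_0) = h(z_0) / z_0 ^ m` a
nonconstant Laurent polynomial with integer coefficients in a further variable (for example `z_0` or
`z_0 + 1 / z_0`). Let `F = det (h(z_0) z ^ d - z_0 ^ m P(z))`, a polynomial in `k + 1` variables; for
`g = z_0` it is, up to a monomial, the characteristic polynomial of `A(z)`.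

(1) For every `K` there is `μ > 1`, independent of `n`, `k` and `A`, such that the Mahler measure
of `F` is `1` or at least `μ` if `A(z)` is diagonalisable at almost all points of the torus,
`A = S D S⁻¹`, and for each row `i` the mean over the torus of the logarithm of
`1 + ∑ |S_ij| |(S⁻¹)_ji|` is at most `K` (the matrix `S` may depend on the point and on `i` in any
way). This number is at most the condition number of `S`; for normal matrices it can be taken to be
`2`. No uniform bound of the condition number is needed, and it may tend to infinity near the points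
of the torus at which `A(z)` is not diagonalisable.

(2) For `g = z_0` it is enough that `A(z) = S B S⁻¹` where `B`, in an orthogonal decomposition, is
the sum of a contraction and of a matrix that does not decrease norms, and that the mean over the
torus of the logarithm of `1 + (∑ |S_ij| ^ 2) ^ (1/2) (∑ |(S⁻¹)_ji| ^ 2) ^ (1/2)` is at most `K` for
each row `i`.

Nothing is assumed on the irreducibility of `F`, on the coefficients or on the degrees.

Method. At a fixed point of the torus the integral over `z_0` of `log (1 + |G_i / F|)`, `G_i` the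
`i`-th diagonal minor, is at most `C(g) + 9 log (1 + condition)` (starting files), so the pairs
`(F, G_i)` have height at most `log M(F) + C(g) + 9 K`. The sum of the minors is essentially the
derivative of `F` with respect to `z_0` (Jacobi's formula), so a prime factor of `F` of measure larger
than `1` either is an integer or divides some minor less often than `F`; here one uses the extreme
coefficients of `F` as a polynomial in `z_0`. For coprime pairs of bounded height the Lehmer gap is
known in all numbers of variables.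
-/

set_option autoImplicit false

namespace Pool.Agent.Results.MP_dc0c68_nt.ConditionedFamilies

open MeasureTheory

noncomputable section

/-- Value of an integer polynomial in `k` variables at the torus point
`(exp (2 π i t_1), …, exp (2 π i t_k))`. -/
def value {k : ℕ} (F : MvPolynomial (Fin k) ℤ) (t : Fin k → ℝ) : ℂ :=
  MvPolynomial.eval
    (fun j : Fin k => Complex.exp (2 * (Real.pi : ℂ) * Complex.I * ((t j : ℝ) : ℂ)))
    (MvPolynomial.map (Int.castRingHom ℂ) F)

/-- The Mahler measure of an integer polynomial in `k` variables. -/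
def mahler {k : ℕ} (F : MvPolynomial (Fin k) ℤ) : ℝ :=
  Real.exp (∫ t in Set.Icc (0 : Fin k → ℝ) 1, Real.log ‖value F t‖)

/-- The matrix of Laurent polynomials `z ^ (-d) P(z)` at a point of the torus. -/
def laurent {k n : ℕ} (P : Matrix (Fin n) (Fin n) (MvPolynomial (Fin k) ℤ)) (d : Fin k →₀ ℕ)
    (t : Fin k → ℝ) : Matrix (Fin n) (Fin n) ℂ :=
  Matrix.of fun i j => (value (MvPolynomial.monomial d 1) t)⁻¹ * value (P i j) t

/-- The polynomial `det (h(z_0) z ^ d - z_0 ^ m P(z))` in `z_0, z_1, …, z_k`. -/
def pencilDet {k n : ℕ} (h : Polynomial ℤ) (m : ℕ)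
    (P : Matrix (Fin n) (Fin n) (MvPolynomial (Fin k) ℤ)) (d : Fin k →₀ ℕ) :
    MvPolynomial (Fin (k + 1)) ℤ :=
  (Matrix.of fun i j => (if i = j then Polynomial.aeval (MvPolynomial.X 0) h *
    MvPolynomial.rename Fin.succ (MvPolynomial.monomial d 1) else 0) -
    MvPolynomial.X 0 ^ m * MvPolynomial.rename Fin.succ (P i j)).det

/-- The matrix `A` is diagonalised by a matrix `S` with inverse `T` such that the sum over `j` of
`|S i j| |T j i|` is at most `L`. -/
def Diagonalised {n : ℕ} (i : Fin n) (L : ℝ) (A : Matrix (Fin n) (Fin n) ℂ) : Prop :=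
  ∃ (S T : Matrix (Fin n) (Fin n) ℂ) (e : Fin n → ℂ),
    S * T = 1 ∧ A = S * Matrix.diagonal e * T ∧ ∑ j, ‖S i j‖ * ‖T j i‖ ≤ L

/-- The sum of the squares of the absolute values of the coordinates. -/
def sqNorm {n : ℕ} (x : Fin n → ℂ) : ℝ := ∑ i, ‖x i‖ ^ 2

/-- There is a matrix `S` with inverse `T` such that `B = T A S` commutes with an orthogonal
projection `E`, does not increase norms on the range of `E` and does not decrease norms on the
orthogonal complement, and the norms of the `i`-th row of `S` and of the `i`-th column of `T` have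
product at most `L`. -/
def Adapted {n : ℕ} (i : Fin n) (L : ℝ) (A : Matrix (Fin n) (Fin n) ℂ) : Prop :=
  ∃ S T B E : Matrix (Fin n) (Fin n) ℂ, S * T = 1 ∧ A = S * B * T ∧
    E.conjTranspose = E ∧ E * E = E ∧ B * E = E * B ∧
    (∀ x, sqNorm ((B * E).mulVec x) ≤ sqNorm (E.mulVec x)) ∧
    (∀ x, sqNorm ((1 - E).mulVec x) ≤ sqNorm ((B * (1 - E)).mulVec x)) ∧
    (∑ j, ‖S i j‖ ^ 2) * (∑ j, ‖T j i‖ ^ 2) ≤ L ^ 2

/-- For almost all points `t` of the torus the matrix `A t` satisfies the condition `C` with the
constant `L t ≥ 0`, and the mean of `log (1 + L t)` over the torus is at most `K`. -/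
def MeanLog {k n : ℕ} (K : ℝ) (C : ℝ → Matrix (Fin n) (Fin n) ℂ → Prop)
    (A : (Fin k → ℝ) → Matrix (Fin n) (Fin n) ℂ) : Prop :=
  ∃ L : (Fin k → ℝ) → ℝ, (∀ t, 0 ≤ L t) ∧
    IntegrableOn (fun t => Real.log (1 + L t)) (Set.Icc (0 : Fin k → ℝ) 1) ∧
    ∫ t in Set.Icc (0 : Fin k → ℝ) 1, Real.log (1 + L t) ≤ K ∧
    ∀ᵐ t ∂(volume.restrict (Set.Icc (0 : Fin k → ℝ) 1)), C (L t) (A t)

theorem result (K : ℝ) :
    (∀ (h : Polynomial ℤ) (m : ℕ), (∀ c : ℤ, h ≠ Polynomial.C c * Polynomial.X ^ m) →
      ∃ μ : ℝ, 1 < μ ∧ ∀ (k n : ℕ) (P : Matrix (Fin n) (Fin n) (MvPolynomial (Fin k) ℤ))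
        (d : Fin k →₀ ℕ), (∀ i, MeanLog K (Diagonalised i) (laurent P d)) →
        mahler (pencilDet h m P d) = 1 ∨ μ ≤ mahler (pencilDet h m P d)) ∧
    ∃ μ : ℝ, 1 < μ ∧ ∀ (k n : ℕ) (P : Matrix (Fin n) (Fin n) (MvPolynomial (Fin k) ℤ))
      (d : Fin k →₀ ℕ), (∀ i, MeanLog K (Adapted i) (laurent P d)) →
      mahler (pencilDet Polynomial.X 0 P d) = 1 ∨ μ ≤ mahler (pencilDet Polynomial.X 0 P d) := by
  constructor
  · intro h m hg
    have hk := Pool.Agent.Y820.LB.kp_ne_of h m hg
    obtain ⟨C, hC⟩ := Pool.Agent.W110.PF.subC_le (Pool.Agent.H261R2.CM.toC h) m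
    obtain ⟨c, hc, hgap⟩ := Pool.Agent.W110.PF.family_gap (C + 9 * K) h m hg
    refine ⟨c, hc, fun k n P d hP => hgap k n P d fun i => ?_⟩
    obtain ⟨L, hL0, hLi, hLK, hL⟩ := hP i
    have hLi' : Integrable (fun t => Real.log (1 + L t)) (Pool.Agent.W110.PG.cub k) := hLi
    refine ⟨fun t => C + 9 * Real.log (1 + L t),
      (integrable_const C).add (hLi'.const_mul 9), ?_, ?_⟩
    · rw [integral_add (integrable_const C) (hLi'.const_mul 9), integral_const_mul, integral_const,
        probReal_univ, one_smul]
      have h1 : ∫ t, Real.log (1 + L t) ∂(Pool.Agent.W110.PG.cub k) ≤ K := hLK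
      linarith
    · filter_upwards [hL] with t ht
      obtain ⟨S, T, e, h1, h2, h3⟩ := ht
      exact (Pool.Agent.W110.PF.PB_diag h m hk h1 h2 i (L t) h3).mono (hC (L t) (hL0 t))
  · have hg : ∀ c : ℤ, (Polynomial.X : Polynomial ℤ) ≠ Polynomial.C c * Polynomial.X ^ 0 := by
      intro c h1
      rw [pow_zero, mul_one] at h1
      have h2 := congrArg Polynomial.natDegree h1
      rw [Polynomial.natDegree_X, Polynomial.natDegree_C] at h2
      omega
    obtain ⟨c, hc, hgap⟩ := Pool.Agent.W110.PF.family_gap (8 * Real.log 2 + 8 * K)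
      Polynomial.X 0 hg
    refine ⟨c, hc, fun k n P d hP => hgap k n P d fun i => ?_⟩
    obtain ⟨L, hL0, hLi, hLK, hL⟩ := hP i
    have hLi' : Integrable (fun t => Real.log (1 + L t)) (Pool.Agent.W110.PG.cub k) := hLi
    refine ⟨fun t => 8 * Real.log 2 + 8 * Real.log (1 + L t),
      (integrable_const _).add (hLi'.const_mul 8), ?_, ?_⟩
    · rw [integral_add (integrable_const _) (hLi'.const_mul 8),
        integral_const_mul (8 : ℝ) (fun t => Real.log (1 + L t)), integral_const,
        probReal_univ, one_smul]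
      have h1 : ∫ t, Real.log (1 + L t) ∂(Pool.Agent.W110.PG.cub k) ≤ K := hLK
      linarith
    · filter_upwards [hL] with t ht
      obtain ⟨S, T, B, E, h1, h2, h3, h4, h5, h6, h7, h8⟩ := ht
      refine (Pool.Agent.W110.PF.PB_adapted
        (Pool.Agent.W110.PF.AdC_of _ S T B E h1 h2 h3 h4 h5 h6 h7) i h8 (hL0 t)).mono ?_
      linarith

end

end Pool.Agent.Results.MP_dc0c68_nt.ConditionedFamilies
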