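import Pool.Agent.R719.LG.Link

/-!
# Lehmer's problem for determinants of dominated matrices

Let `A` be a square matrix of Laurent polynomials with integer coefficients such that in each row one
coefficient dominates all the others, in the sense of some positive real weights of the columns. Then
`det A = ± T ^ m` or the Mahler measure of `det A` is at least `2`. The bound `2` is attained, and
with any factor larger than `1` in the condition of dominance all integer polynomials are such
determinants.
-/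

set_option autoImplicit false

namespace Pool.Agent.Results.MP_dc0c68_nt.DominantDeterminants

open Polynomial LaurentPolynomial

/-- the sum of the absolute values of the coefficients -/
noncomputable def norm1 (x : ℤ[T;T⁻¹]) : ℤ := ∑ m ∈ x.coeff.support, |x.coeff m|

/-- Strict weighted dominance: for a permutation `σ`, integers `k i` and weights `p j > 0`, for each
row `i`, the absolute value of the coefficient of `T ^ (k i)` in the entry at `(i, σ i)`, times
`p (σ i)`, is larger than the sum over all `j` of `p j` times the absolute values of all the other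
coefficients of the entries at `(i, j)`. -/
def WeightedDominant {κ : Type} [Fintype κ] (A : Matrix κ κ ℤ[T;T⁻¹]) : Prop :=
  ∃ (σ : κ ≃ κ) (k : κ → ℤ) (p : κ → ℝ), (∀ j, 0 < p j) ∧ ∀ i,
    (∑ j, (norm1 (A i j) : ℝ) * p j) - |((A i (σ i)).coeff (k i) : ℝ)| * p (σ i)
      < |((A i (σ i)).coeff (k i) : ℝ)| * p (σ i)

/-- Dominance by rows with the factor `c`: the sum of the absolute values of all coefficients of
row `i`, except the constant coefficient of the diagonal entry, is at most `c` times this
coefficient. -/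
def Dominant {κ : Type} [Fintype κ] (c : ℝ) (A : Matrix κ κ ℤ[T;T⁻¹]) : Prop :=
  ∀ i, (∑ j, (norm1 (A i j) : ℝ)) - |((A i i).coeff 0 : ℝ)| ≤ c * ((A i i).coeff 0 : ℝ)

/-- the Mahler measure of an integer polynomial -/
noncomputable def mahler (f : ℤ[X]) : ℝ := (f.map (Int.castRingHom ℂ)).mahlerMeasure

section aux

open TH57.Thr TH6.LF TH6.CX Pool.Agent.Y75.Th Pool.Agent.Y35.KC.TTm Pool.Agent.R719.DD
  Pool.Agent.R719.WD Pool.Agent.R719.LG

theorem norm1_eq (x : ℤ[T;T⁻¹]) : (norm1 x : ℝ) = (l1 (eL x) : ℝ) := by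
  have h : norm1 x = nL x := rfl
  rw [h, ← l1_eL]
  simp

theorem det_map_eL {κ : Type} [Fintype κ] [DecidableEq κ] (A : Matrix κ κ ℤ[T;T⁻¹]) :
    (A.map eL).det = eL A.det := by
  have h := RingHom.map_det (eL : ℤ[T;T⁻¹] →+* LP) A
  exact h.symm

theorem partA (κ : Type) [Fintype κ] [DecidableEq κ] (A : Matrix κ κ ℤ[T;T⁻¹])
    (hA : WeightedDominant A) (f : ℤ[X]) (k : ℤ) (hf : toLaurent f = T k * A.det) :
    ((∃ m : ℤ, A.det = T m ∨ A.det = -T m) ∧ mahler f = 1) ∨ 2 ≤ mahler f := by
  obtain ⟨σ, e, p, hp, h⟩ := hA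
  have h1 : ∀ i, ∑ j, (l1 ((A.map eL) i j) : ℝ) * p j
      < 2 * |(((A.map eL) i (σ i)).coeff (Multiplicative.ofAdd (e i)) : ℝ)| * p (σ i) := by
    intro i
    have h2 := h i
    have h3 : ∀ j, (l1 ((A.map eL) i j) : ℝ) = (norm1 (A i j) : ℝ) := fun j =>
      (norm1_eq (A i j)).symm
    have h4 : ((A.map eL) i (σ i)).coeff (Multiplicative.ofAdd (e i))
        = (A i (σ i)).coeff (e i) := coeff_eL _ _
    rw [h4]
    simp only [h3]
    linarith
  have hf' : eL (toLaurent f) = tt k * eL A.det := by rw [hf, map_mul, eL_T]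
  have hlog := mm_eq_mahler f k (eL A.det) hf'
  have h2 := gap_pos (A.map eL) σ e p hp h1
  rw [det_map_eL] at h2
  have hne : A.det ≠ 0 → f.map (Int.castRingHom ℂ) ≠ 0 := by
    intro h3 h4
    have h5 : f = 0 := by
      have h6 := Polynomial.map_injective (Int.castRingHom ℂ) (Int.cast_injective (α := ℂ))
      exact h6 (by rw [h4, Polynomial.map_zero])
    rw [h5, map_zero] at hf
    have h6 : T (-k) * (T k * A.det) = 0 := by rw [← hf, mul_zero]
    rw [← mul_assoc, ← T_add, neg_add_cancel, T_zero, one_mul] at h6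
    exact h3 h6
  rcases h2 with ⟨m, hm⟩ | h2
  · left
    have hm' : A.det = T m ∨ A.det = -T m := by
      rcases hm with hm | hm
      · left; exact eL.injective (by rw [hm, eL_T])
      · right; exact eL.injective (by rw [hm, map_neg, eL_T])
    have h0 : A.det ≠ 0 := by
      intro h3
      rw [h3, map_zero] at hm
      have h4 : ev 1 (tt m) = 0 := by
        rcases hm with hm | hm
        · rw [← hm, map_zero]
        · rw [← neg_neg (tt m), ← hm, neg_zero, map_zero]
      rw [ev_tt] at h4
      simp at h4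
    refine ⟨⟨m, hm'⟩, ?_⟩
    have h3 : mm (eL A.det) = 0 := by
      rcases hm with hm | hm
      · rw [hm, mm_tt]
      · rw [hm, mm_neg_tt]
    have hz := hne h0
    unfold mahler
    rw [h3, logMahlerMeasure_eq_log_MahlerMeasure] at hlog
    have h4 := Polynomial.mahlerMeasure_pos_of_ne_zero hz
    rw [← Real.exp_log h4, ← hlog, Real.exp_zero]
  · right
    have h0 : A.det ≠ 0 := by
      intro h3
      rw [h3, map_zero] at h2
      have h4 : mm (0 : LP) = 0 := by
        unfold mm lf
        simp
      rw [h4] at h2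
      exact absurd h2 (not_le.2 (Real.log_pos (by norm_num)))
    have hz := hne h0
    unfold mahler
    rw [hlog, logMahlerMeasure_eq_log_MahlerMeasure] at h2
    exact (Real.log_le_log_iff (by norm_num) (Polynomial.mahlerMeasure_pos_of_ne_zero hz)).1 h2

/-- `2 - T` -/
noncomputable def xB : ℤ[T;T⁻¹] := LaurentPolynomial.C 2 - T 1

theorem xB_coeff (m : ℤ) : xB.coeff m = (if (0 : ℤ) = m then 2 else 0)
    - (if (1 : ℤ) = m then 1 else 0) := by
  have h1 : xB = AddMonoidAlgebra.single 0 2 - AddMonoidAlgebra.single 1 1 := by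
    unfold xB
    rw [← LaurentPolynomial.single_eq_C]
    rfl
  rw [h1, AddMonoidAlgebra.coeff_sub, AddMonoidAlgebra.coeff_single, AddMonoidAlgebra.coeff_single,
    Finsupp.sub_apply, Finsupp.single_apply, Finsupp.single_apply]

theorem xB_norm : norm1 xB = 3 := by
  have h5 : norm1 xB = (l1 (eL xB) : ℤ) := (l1_eL _).symm
  rw [h5, l1_eq_sum (eL xB) {0, 1} (fun m hm => by
    rw [coeff_eL, xB_coeff] at hm
    by_contra h6
    simp only [Finset.mem_insert, Finset.mem_singleton, not_or] at h6
    rw [if_neg (Ne.symm h6.1), if_neg (Ne.symm h6.2)] at hm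
    exact hm rfl)]
  rw [Finset.sum_insert (by simp), Finset.sum_singleton, coeff_eL, coeff_eL, xB_coeff, xB_coeff]
  norm_num

theorem wd_unit (x : ℤ[T;T⁻¹]) (h1 : norm1 x = 3) (h2 : x.coeff 0 = 2) :
    WeightedDominant (Matrix.of fun _ _ => x : Matrix Unit Unit ℤ[T;T⁻¹]) := by
  refine ⟨Equiv.refl _, fun _ => 0, fun _ => 1, fun _ => one_pos, fun i => ?_⟩
  simp only [Finset.univ_unique, Finset.sum_singleton, Equiv.refl_apply, mul_one, Matrix.of_apply]
  rw [h1, h2]
  norm_num

theorem det_unit (x : ℤ[T;T⁻¹]) :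
    (Matrix.of fun _ _ => x : Matrix Unit Unit ℤ[T;T⁻¹]).det = x := by
  rw [Matrix.det_unique, Matrix.of_apply]

theorem xB_poly : toLaurent (Polynomial.C 2 - X : ℤ[X]) = xB := by
  unfold xB
  rw [map_sub, toLaurent_X, toLaurent_C]

theorem mahler_xB : mahler (Polynomial.C 2 - X) = 2 := by
  unfold mahler
  have h1 : (Polynomial.C 2 - X : ℤ[X]).map (Int.castRingHom ℂ)
      = Polynomial.C (-1) * X + Polynomial.C 2 := by
    rw [Polynomial.map_sub, Polynomial.map_X, Polynomial.map_C, Polynomial.C_neg,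
      Polynomial.C_1]
    have : (Int.castRingHom ℂ) 2 = 2 := by simp
    rw [this]
    ring
  rw [h1, Polynomial.mahlerMeasure_C_mul_X_add_C (by norm_num)]
  norm_num

theorem partC (c : ℝ) (hc : 1 < c) (f : ℤ[X]) : ∃ (κ : Type) (_ : Fintype κ) (_ : DecidableEq κ)
    (A : Matrix κ κ ℤ[T;T⁻¹]), Dominant c A ∧ A.det = toLaurent f := by
  classical
  let S : Matrix Unit Unit LP := Matrix.of fun _ _ => eL (toLaurent f)
  obtain ⟨N, hN⟩ := dom_stab c hc S
  have h1 := hN N le_rfl
  rw [← pm_mul] at h1
  set B := (pm Z1 Unit N).val * Matrix.fromBlocks S 0 0 1 * adj (pm Z1 Unit N).val with hB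
  have hdetB : B.det = eL (toLaurent f) := by
    have h2 : (pm Z1 Unit N).val.det = 1 := by
      change (Matrix.fromBlocks 1 (xm Z1 Unit N) 0 1).det = 1
      rw [Matrix.det_fromBlocks_zero₂₁, Matrix.det_one, Matrix.det_one, mul_one]
    have h3 : (adj (pm Z1 Unit N).val).det = 1 := by
      change (adj (Matrix.fromBlocks 1 (xm Z1 Unit N) 0 1)).det = 1
      rw [adj_fromBlocks, adj_one, adj_zero, adj_one, Matrix.det_fromBlocks_zero₁₂,
        Matrix.det_one, Matrix.det_one, mul_one]
    rw [hB, Matrix.det_mul, Matrix.det_mul, h2, h3, one_mul, mul_one,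
      Matrix.det_fromBlocks_zero₂₁, Matrix.det_one, mul_one, Matrix.det_unique]
    rfl
  let A : Matrix (Unit ⊕ Unit × Fin N) (Unit ⊕ Unit × Fin N) ℤ[T;T⁻¹] := B.map eL.symm
  have hA : A.map eL = B := by
    ext1 i j
    exact eL.apply_symm_apply _
  refine ⟨_, inferInstance, inferInstance, A, fun i => ?_, ?_⟩
  · have h2 := h1 i
    have h3 : ∀ j, (norm1 (A i j) : ℝ) = (l1 (B i j) : ℝ) := by
      intro j
      rw [norm1_eq]
      have : eL (A i j) = B i j := eL.apply_symm_apply _
      rw [this]
    have h4 : (A i i).coeff 0 = (B i i).coeff 1 := by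
      have h5 : eL (A i i) = B i i := eL.apply_symm_apply _
      rw [← h5, ← ofAdd_zero, coeff_eL]
    rw [h4]
    simp only [h3]
    exact h2
  · apply eL.injective
    rw [← det_map_eL, hA, hdetB]

end aux

/-- (A) Let `A` be a strictly weighted dominated matrix of Laurent polynomials with integer
coefficients and let `f` be an integer polynomial with `f = T ^ k * det A`. Then `det A = ± T ^ m`
and `M(f) = 1`, or `M(f) ≥ 2`. (B) The bound `2` is attained, by `f = 2 - X`. (C) If the dominating
coefficients are only required to be at least `1 / c` times the sum of the others, where `c > 1`, then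
every integer polynomial is the determinant of such a matrix. -/
theorem result :
    (∀ (κ : Type) [Fintype κ] [DecidableEq κ] (A : Matrix κ κ ℤ[T;T⁻¹]), WeightedDominant A →
      ∀ (f : ℤ[X]) (k : ℤ), toLaurent f = T k * A.det →
        ((∃ m : ℤ, A.det = T m ∨ A.det = -T m) ∧ mahler f = 1) ∨ 2 ≤ mahler f) ∧
    (∃ A : Matrix Unit Unit ℤ[T;T⁻¹], WeightedDominant A ∧
      toLaurent (Polynomial.C 2 - X : ℤ[X]) = A.det ∧ mahler (Polynomial.C 2 - X) = 2) ∧
    ∀ c : ℝ, 1 < c → ∀ f : ℤ[X], ∃ (κ : Type) (_ : Fintype κ) (_ : DecidableEq κ)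
      (A : Matrix κ κ ℤ[T;T⁻¹]), Dominant c A ∧ A.det = toLaurent f :=
  ⟨fun κ _ _ A hA f k hf => partA κ A hA f k hf, ⟨Matrix.of fun _ _ => xB,
    wd_unit xB xB_norm (by rw [xB_coeff]; norm_num), by rw [det_unit, xB_poly], mahler_xB⟩,
    fun c hc f => partC c hc f⟩

end Pool.Agent.Results.MP_dc0c68_nt.DominantDeterminants
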