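import Mathlib
import Pool.Agent.R976.MP.MahlerN

/-!
# Lehmer's problem for polynomials with a zero near a field generated by periodic points

Let `K` be a number field, `v` a finite place of `K` above the prime number `p` and `R` a natural
number. We consider the endomorphisms of the projective spaces `P^M` over `K` with `M ≤ R`, of
degrees `p ^ s` with `1 ≤ s ≤ R`, which have good, purely inseparable reduction at `v` in some
coordinates over `K`; for instance all polynomials `X ^ (p ^ s) + p * g(X) + c` with `g` of degree
less than `p ^ s`, over the integers of `K`, or, for `K = ℚ` and `p = 2`, all polynomials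
`X ^ 2 + c` with an integer `c`.

Let `E` be a Galois extension of `K` (a number field) which is generated over `K` by coordinates of
periodic points of such maps (of any number of them) and by elements of abelian extensions of `K`,
such that the ramification indices of `E` over `K` at the primes above `v` are at most `e` (this is
automatic, with `e = 1`, if `E` is generated by periodic points). Let `f` be an irreducible integer
polynomial which has a zero in an extension of degree at most `D` of `E`. Then `M(f) = 1` or
`log M(f) ≥ deg f * exp (- C * sqrt (1 + log D)) / (C * e * D)`,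
where the constant `C` depends only on `K`, `v` and `R`. Hence for all `D`, `e` and `B` there are
only finitely many such polynomials with `1 < M(f) ≤ B`; in particular there are only finitely many
which violate the inequality of Lehmer's problem.
-/

set_option autoImplicit false

namespace Pool.Agent.Results.MP_dc0c68_nt.ZerosNearPeriodicFields

open NumberField Module
open scoped Pointwise

/-- A tuple `G` of `M + 1` forms of degree `q` over the number field `k` has *good, purely
inseparable reduction* at the finite place `v`: all coefficients are `v`-integral, those of the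
monomials which are not of the form `X_j ^ q` are in the maximal ideal, and the determinant of the
coefficients of the `X_j ^ q` is a unit at `v`. -/
def GoodInseparable {k : Type} [Field k] [NumberField k] {M : ℕ} (v : FinitePlace k) (q : ℕ)
    (G : Fin (M + 1) → MvPolynomial (Fin (M + 1)) k) : Prop :=
  (∀ i m, v ((G i).coeff m) ≤ 1) ∧
  (∀ i m, (∀ j, m ≠ Finsupp.single j q) → v ((G i).coeff m) < 1) ∧
  v (Matrix.det (Matrix.of fun i j => (G i).coeff (Finsupp.single j q))) = 1

/-- The tuple `F` of forms of degree `q` over `K` has good, purely inseparable reduction at the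
place `v` *in some coordinates over `K`*: there are an invertible matrix `A` over `K` and a tuple
`G` of forms of degree `q` over `K` with `A ∘ F = G ∘ A` which has good, purely inseparable
reduction at `v`. -/
def InseparableOver {K : Type} [Field K] [NumberField K] {M : ℕ} (v : FinitePlace K) (q : ℕ)
    (F : Fin (M + 1) → MvPolynomial (Fin (M + 1)) K) : Prop :=
  (∀ i, (F i).IsHomogeneous q) ∧
  ∃ (A : Matrix (Fin (M + 1)) (Fin (M + 1)) K) (G : Fin (M + 1) → MvPolynomial (Fin (M + 1)) K),
    A.det ≠ 0 ∧ (∀ i, (G i).IsHomogeneous q) ∧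
    (∀ i, ∑ j, MvPolynomial.C (A i j) * F j =
      MvPolynomial.bind₁ (fun l => ∑ j, MvPolynomial.C (A l j) * MvPolynomial.X j) (G i)) ∧
    GoodInseparable v q G

/-- the map defined by a tuple of forms, on coordinate vectors over an extension -/
noncomputable def evalMap {K L : Type} [Field K] [Field L] [Algebra K L] {M : ℕ}
    (F : Fin (M + 1) → MvPolynomial (Fin (M + 1)) K) (y : Fin (M + 1) → L) : Fin (M + 1) → L :=
  fun i => MvPolynomial.aeval y (F i)

/-- the point with coordinate vector `y` is periodic -/
def Periodic {K L : Type} [Field K] [Field L] [Algebra K L] {M : ℕ}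
    (F : Fin (M + 1) → MvPolynomial (Fin (M + 1)) K) (y : Fin (M + 1) → L) : Prop :=
  y ≠ 0 ∧ ∃ j : ℕ, 1 ≤ j ∧ ∃ c : L, c ≠ 0 ∧ (evalMap F)^[j] y = c • y

/-- the (affine) coordinates `y i / y j` of the periodic points over `E` of all the endomorphisms
of `P^M` over `K`, `M ≤ R`, of degrees `p ^ s`, `1 ≤ s ≤ R`, with good, purely inseparable
reduction at `v` in some coordinates over `K` -/
def allPeriodic {K : Type} [Field K] [NumberField K] (v : FinitePlace K) (p R : ℕ) (E : Type)
    [Field E] [Algebra K E] : Set E :=
  {t | ∃ (M s : ℕ) (G : Fin (M + 1) → MvPolynomial (Fin (M + 1)) K) (y : Fin (M + 1) → E),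
    M ≤ R ∧ 1 ≤ s ∧ s ≤ R ∧ InseparableOver v (p ^ s) G ∧ Periodic G y ∧
    ∃ i j, y j ≠ 0 ∧ t = y i / y j}

/-- the elements of `E` on which all automorphisms over `K` commute; for a Galois extension `E` of
`K` they form the largest subfield of `E` which is an abelian extension of `K` -/
def abelianSet (K : Type) [Field K] (E : Type) [Field E] [Algebra K E] : Set E :=
  {t | ∀ σ τ : Gal(E/K), σ (τ t) = τ (σ t)}

/-- The polynomial `f` has a zero in an extension `L` of degree at most `D` of a Galois extension
`E` of `K` which is generated over `K` by periodic points as above and elements of abelian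
extensions of `K`; moreover `E` is generated by the periodic points alone, or its ramification
indices above `v` are at most `e`. -/
def ZeroNear {K : Type} [Field K] [NumberField K] (v : FinitePlace K) (p R e D : ℕ)
    (f : Polynomial ℤ) : Prop :=
  ∃ (E L : Type) (_ : Field E) (_ : NumberField E) (_ : Field L) (_ : NumberField L)
    (_ : Algebra K E) (_ : Algebra E L), IsGalois K E ∧
    Algebra.adjoin K (abelianSet K E ∪ allPeriodic v p R E) = ⊤ ∧
    (Algebra.adjoin K (allPeriodic v p R E) = ⊤ ∨
      ∀ 𝔓 : Ideal (𝓞 E), 𝔓.IsMaximal → 𝔓.LiesOver v.maximalIdeal.asIdeal →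
        𝔓.ramificationIdx (𝓞 K) ≤ e) ∧
    finrank E L ≤ D ∧ ∃ β : L, Polynomial.aeval β f = 0

/-- the Mahler measure -/
noncomputable def M (f : Polynomial ℤ) : ℝ := (f.map (Int.castRingHom ℂ)).mahlerMeasure

lemma allPeriodic_sub {K : Type} [Field K] [NumberField K] (v : FinitePlace K) (p R : ℕ) (E : Type)
    [Field E] [Algebra K E] :
    allPeriodic v p R E ⊆ Pool.Agent.R976.MP.Proj.PerGenN v p R E := by
  rintro t ⟨M, s, F, y, hM, hs, hsR, ⟨hF, A, G, hA, hG, hconj, h1, h2, h3⟩,
    ⟨-, j, hj, c, -, hper⟩, i, k, hk, rfl⟩
  refine ⟨M, F, y, hM, ⟨s, hs, hsR, hF, A, G, hA, hG, ?_, ⟨h1, h2, h3⟩⟩, ⟨j, hj, c, hper⟩,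
    i, k, hk, rfl⟩
  intro i
  rw [← hconj i]
  refine Finset.sum_congr rfl fun j _ => ?_
  rw [Algebra.algebraMap_self, MvPolynomial.map_id]

lemma adjoin_mono {K E : Type} [Field K] [Field E] [Algebra K E] {S T : Set E} (h : S ⊆ T)
    (hS : Algebra.adjoin K S = ⊤) : Algebra.adjoin K T = ⊤ := by
  rw [eq_top_iff, ← hS]
  exact Algebra.adjoin_mono h

/-- **Main result.** -/
theorem result (K : Type) [Field K] [NumberField K] (p : ℕ) (hp : p.Prime)
    (v : FinitePlace K) (hv : v (p : K) < 1) (R : ℕ) :
    (∃ C : ℝ, 0 < C ∧ ∀ e D : ℕ, 1 ≤ e → ∀ f : Polynomial ℤ, Irreducible f →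
      ZeroNear v p R e D f → M f = 1 ∨
        f.natDegree * (Real.exp (-(C * Real.sqrt (1 + Real.log D))) / (C * e * D)) ≤
          Real.log (M f)) ∧
    ∀ (e D : ℕ) (B : ℝ), 1 ≤ e →
      {f : Polynomial ℤ | Irreducible f ∧ ZeroNear v p R e D f ∧ 1 < M f ∧ M f ≤ B}.Finite := by
  obtain ⟨C, hC, h⟩ := Pool.Agent.R976.MP.Proj.periodic_mahlerN v hp hv R
  have key : ∀ e D : ℕ, 1 ≤ e → ∀ f : Polynomial ℤ, Irreducible f →
      ZeroNear v p R e D f → M f = 1 ∨
        f.natDegree * (Real.exp (-(C * Real.sqrt (1 + Real.log D))) / (C * e * D)) ≤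
          Real.log (M f) := by
    intro e D he f hf hz
    obtain ⟨E, L, _, _, _, _, _, _, hgal, hgen, hor, hD, β, hβ⟩ := hz
    rcases h E L (adjoin_mono (Set.union_subset_union_right _ (allPeriodic_sub v p R E)) hgen) e he
      (hor.imp_left (adjoin_mono (allPeriodic_sub v p R E))) f hf β hβ with h1 | h1
    · exact Or.inl h1
    · right
      refine le_trans ?_ h1
      have h3 : (0 : ℝ) < finrank E L := by exact_mod_cast (finrank_pos : 0 < finrank E L)
      have h4 : (finrank E L : ℝ) ≤ D := by exact_mod_cast hD
      have h5 : (0 : ℝ) < e := by exact_mod_cast he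
      gcongr
  refine ⟨⟨C, hC, key⟩, ?_⟩
  intro e D B he
  rcases Nat.eq_zero_or_pos D with hD | hD
  · -- no such polynomials
    refine Set.Finite.subset Set.finite_empty ?_
    rintro f ⟨-, ⟨E, L, _, _, _, _, _, _, -, -, -, h1, -⟩, -⟩
    have : 0 < finrank E L := finrank_pos
    omega
  set x := Real.exp (-(C * Real.sqrt (1 + Real.log D))) / (C * e * D) with hx
  have hDR : (0 : ℝ) < D := by exact_mod_cast hD
  have heR : (0 : ℝ) < e := by exact_mod_cast he
  have hx0 : 0 < x := by positivity
  refine Set.Finite.subset
    (Polynomial.finite_mahlerMeasure_le ⌊Real.log B / x⌋₊ (Real.toNNReal B)) ?_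
  rintro f ⟨hf, hz, h1, h2⟩
  have hB : 1 < B := lt_of_lt_of_le h1 h2
  refine ⟨?_, ?_⟩
  · rcases key e D he f hf hz with h3 | h3
    · exact absurd h3 h1.ne'
    · apply Nat.le_floor
      rw [le_div_iff₀ hx0]
      refine h3.trans ?_
      exact Real.log_le_log (by linarith) h2
  · rw [Real.coe_toNNReal B (by linarith)]
    exact h2

end Pool.Agent.Results.MP_dc0c68_nt.ZerosNearPeriodicFields
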